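import Pool.Agent.H78.STN.Stmts

set_option autoImplicit false

open Polynomial

namespace Pool.STN

def cbd_S (A : ℤ[X]) (D : ℕ) : ℤ := ∑ j ∈ Finset.range D, |A.coeff j| * 7 ^ j

theorem cbd_step (A : ℤ[X]) (K c : ℤ) (h : ∀ D, cbd_S A D ≤ K) (D : ℕ) :
    cbd_S ((X - C c) * A) D ≤ (7 + |c|) * K := by
  have hK : 0 ≤ K := by
    have := h 0
    simpa [cbd_S] using this
  have hc := abs_nonneg c
  cases D with
  | zero =>
    simp only [cbd_S, Finset.range_zero, Finset.sum_empty]
    positivity
  | succ D =>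
    have h1 : cbd_S ((X - C c) * A) (D + 1) ≤ 7 * cbd_S A D + |c| * cbd_S A (D + 1) := by
      unfold cbd_S
      rw [Finset.sum_range_succ', Finset.sum_range_succ' (fun j => |A.coeff j| * 7 ^ j) D,
        Finset.mul_sum, mul_add, Finset.mul_sum, ← add_assoc, ← Finset.sum_add_distrib]
      apply add_le_add
      · apply Finset.sum_le_sum
        intro j _
        rw [sub_mul, coeff_sub, coeff_X_mul, coeff_C_mul]
        have h2 : |A.coeff j - c * A.coeff (j + 1)| ≤ |A.coeff j| + |c| * |A.coeff (j + 1)| := by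
          rw [← abs_mul]
          exact abs_sub _ _
        calc |A.coeff j - c * A.coeff (j + 1)| * 7 ^ (j + 1)
            ≤ (|A.coeff j| + |c| * |A.coeff (j + 1)|) * 7 ^ (j + 1) :=
              mul_le_mul_of_nonneg_right h2 (by positivity)
          _ = 7 * (|A.coeff j| * 7 ^ j) + |c| * (|A.coeff (j + 1)| * 7 ^ (j + 1)) := by
              rw [pow_succ]
              ring
      · rw [sub_mul, coeff_sub, coeff_X_mul_zero, coeff_C_mul, zero_sub, abs_neg, abs_mul]
        simp
    have h2 := h D
    have h3 := h (D + 1)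
    have h4 := mul_le_mul_of_nonneg_left h3 hc
    linarith

theorem cbd_pow (n : ℕ) : ∀ D, cbd_S (Pz ^ n) D ≤ 7909200 ^ n := by
  induction n with
  | zero =>
    intro D
    rw [pow_zero, pow_zero]
    cases D with
    | zero => simp [cbd_S]
    | succ D =>
      unfold cbd_S
      rw [Finset.sum_range_succ']
      simp [coeff_one]
  | succ n ih =>
    intro D
    have e : Pz ^ (n + 1) = (X - C 6) * ((X - C 6) * ((X - C 6) * ((X - C 8) * ((X - C 8) *
        ((X - C 9) * Pz ^ n))))) := by
      rw [pow_succ]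
      conv_lhs => rw [mul_comm]
      unfold Pz
      ring
    rw [e]
    have h := cbd_step _ _ 6 (cbd_step _ _ 6 (cbd_step _ _ 6 (cbd_step _ _ 8 (cbd_step _ _ 8
      (cbd_step _ _ 9 ih))))) D
    refine h.trans (le_of_eq ?_)
    rw [pow_succ]
    norm_num
    ring

theorem CBD_thm : CBDStmt := by
  intro n j
  refine le_trans ?_ (cbd_pow n (j + 1))
  unfold cbd_S
  exact Finset.single_le_sum (f := fun i => |(Pz ^ n).coeff i| * 7 ^ i)
    (fun i _ => by positivity) (Finset.mem_range.2 (Nat.lt_succ_self j))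

end Pool.STN
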