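import Pool.Agent.H78.STN.Stmts3

set_option autoImplicit false

open Finset

namespace Pool.STN

theorem chbr_cnt (P : ℕ → Prop) [DecidablePred P] (j k : ℕ) (h : j < k) :
    ((Ico j k).filter P).card = ((Ico (j + 1) k).filter P).card + if P j then 1 else 0 := by
  rw [Finset.card_filter, Finset.card_filter, Finset.sum_eq_sum_Ico_succ_bot h, add_comm]

theorem chbr_up (x : ℕ) (hx : 2 ≤ x) : (x % 3 ≠ 0 → x ≤ F x) ∧ (x % 3 = 0 → 3 * F x = 2 * x) ∧
    (F x < x ↔ x % 3 = 0) ∧ (x < F x ↔ x % 3 ≠ 0) := by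
  unfold F
  split_ifs <;> omega

noncomputable def chbr_S (n : ℕ) : ℝ := ∑ i ∈ range n, ((8 : ℝ) / 5) ^ i

theorem chbr_succ (n : ℕ) : chbr_S (n + 1) = chbr_S n + (8 / 5) ^ n := by
  unfold chbr_S
  rw [Finset.sum_range_succ]

theorem chbr_main (m0 k : ℕ) (h2 : 2 ≤ m0) (hper : F^[k] m0 = m0)
    (hmin : ∀ j, m0 ≤ F^[j] m0) (t : ℕ) : t ≤ k →
    (F^[k - t] m0 % 3 ≠ 0 →
      Real.log (F^[k - t] m0 : ℕ) ≤
        (8 / 5 : ℝ) ^ ((Ico (k - t) k).filter fun i =>
          F^[i] m0 % 3 = 0 ∧ F^[i + 1] m0 % 3 ≠ 0).card * Real.log m0 ∧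
      (((Ico (k - t) k).filter fun i => F^[i] m0 % 3 = 0).card : ℝ) * Real.log 2 ≤
        chbr_S ((Ico (k - t) k).filter fun i =>
          F^[i] m0 % 3 = 0 ∧ F^[i + 1] m0 % 3 ≠ 0).card * Real.log m0) ∧
    (F^[k - t] m0 % 3 = 0 → ∃ l b w D' : ℕ, ((Ico (k - t) k).filter fun i =>
          F^[i] m0 % 3 = 0 ∧ F^[i + 1] m0 % 3 ≠ 0).card = l + 1 ∧
      ((Ico (k - t) k).filter fun i => F^[i] m0 % 3 = 0).card = D' + b ∧
      3 ^ b * w = 2 ^ b * F^[k - t] m0 ∧ 1 ≤ w ∧
      Real.log w ≤ (8 / 5 : ℝ) ^ l * Real.log m0 ∧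
      (D' : ℝ) * Real.log 2 ≤ chbr_S l * Real.log m0) := by
  have hlm : 0 ≤ Real.log m0 := Real.log_natCast_nonneg m0
  induction t with
  | zero =>
    intro _
    rw [Nat.sub_zero, hper, Finset.Ico_self]
    constructor
    · intro _
      simp [chbr_S]
    · intro h
      exfalso
      have h3 := hmin 1
      have h4 := chbr_up m0 h2
      rw [Function.iterate_one] at h3
      have h5 := h4.2.2.1.2 h
      omega
  | succ t ih =>
    intro ht
    obtain ⟨ihA, ihB⟩ := ih (by omega)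
    obtain ⟨j, hj⟩ : ∃ j, j = k - (t + 1) := ⟨_, rfl⟩
    have hj1 : k - t = j + 1 := by omega
    have hjk : j < k := by omega
    rw [hj1] at ihA ihB
    rw [← hj]
    have hL := chbr_cnt (fun i => F^[i] m0 % 3 = 0 ∧ F^[i + 1] m0 % 3 ≠ 0) j k hjk
    have hD := chbr_cnt (fun i => F^[i] m0 % 3 = 0) j k hjk
    rw [hL, hD]
    generalize ((Ico (j + 1) k).filter fun i =>
          F^[i] m0 % 3 = 0 ∧ F^[i + 1] m0 % 3 ≠ 0).card = L at *
    generalize ((Ico (j + 1) k).filter fun i => F^[i] m0 % 3 = 0).card = D at *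
    have es : F^[j + 1] m0 = F (F^[j] m0) := Function.iterate_succ_apply' _ _ _
    have hx2 : 2 ≤ F^[j] m0 := h2.trans (hmin j)
    have hy2 : 2 ≤ F^[j + 1] m0 := h2.trans (hmin (j + 1))
    obtain ⟨u1, u2, -, -⟩ := chbr_up _ hx2
    rw [← es] at u1 u2
    have hx0 : (0 : ℝ) < (F^[j] m0 : ℕ) := by
      have : 0 < F^[j] m0 := by omega
      exact_mod_cast this
    constructor
    · intro hd
      have hle : Real.log (F^[j] m0 : ℕ) ≤ Real.log (F^[j + 1] m0 : ℕ) := by
        apply Real.log_le_log hx0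
        exact_mod_cast u1 hd
      rw [if_neg (fun h => hd h.1), if_neg hd, add_zero, add_zero]
      by_cases hd' : F^[j + 1] m0 % 3 = 0
      · obtain ⟨l, b, w, D', e1, e2, e3, e4, e5, e6⟩ := ihB hd'
        have hw0 : (0 : ℝ) < w := by exact_mod_cast e4
        have hdv : 2 ^ b ∣ w := by
          have h7 : 2 ^ b ∣ 3 ^ b * w := by
            rw [e3]
            exact dvd_mul_right _ _
          exact (Nat.Coprime.pow b b (by norm_num : Nat.Coprime 2 3)).dvd_of_dvd_mul_left h7
        have hbw : 2 ^ b ≤ w := Nat.le_of_dvd e4 hdv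
        have hlb : (b : ℝ) * Real.log 2 ≤ Real.log w := by
          rw [← Real.log_pow]
          apply Real.log_le_log (by positivity)
          exact_mod_cast hbw
        have hly : Real.log (F^[j + 1] m0 : ℕ) = Real.log w + b * (Real.log 3 - Real.log 2) := by
          have h8 : ((3 ^ b * w : ℕ) : ℝ) = ((2 ^ b * F^[j + 1] m0 : ℕ) : ℝ) := by rw [e3]
          push_cast at h8
          have hy0 : (0 : ℝ) < (F^[j + 1] m0 : ℕ) := by
            have : 0 < F^[j + 1] m0 := by omega
            exact_mod_cast this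
          have h9 := congrArg Real.log h8
          rw [Real.log_mul (by positivity) hw0.ne', Real.log_mul (by positivity) hy0.ne',
            Real.log_pow, Real.log_pow] at h9
          linarith
        have h35 : 5 * (Real.log 3 - Real.log 2) ≤ 3 * Real.log 2 := by
          have h10 : Real.log ((3 : ℝ) ^ 5) ≤ Real.log ((2 : ℝ) ^ 8) :=
            Real.log_le_log (by norm_num) (by norm_num)
          rw [Real.log_pow, Real.log_pow] at h10
          push_cast at h10
          linarith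
        have hb0 : (0 : ℝ) ≤ b := Nat.cast_nonneg b
        have h11 : (b : ℝ) * (5 * (Real.log 3 - Real.log 2)) ≤ b * (3 * Real.log 2) :=
          mul_le_mul_of_nonneg_left h35 hb0
        rw [e1, e2]
        constructor
        · rw [pow_succ]
          have : Real.log (F^[j + 1] m0 : ℕ) ≤ 8 / 5 * Real.log w := by
            rw [hly]
            linarith
          linarith
        · rw [chbr_succ]
          push_cast
          linarith
      · obtain ⟨a1, a2⟩ := ihA hd'
        exact ⟨hle.trans a1, a2⟩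
    · intro hd
      have h3 := u2 hd
      rw [if_pos hd]
      by_cases hd' : F^[j + 1] m0 % 3 = 0
      · obtain ⟨l, b, w, D', e1, e2, e3, e4, e5, e6⟩ := ihB hd'
        rw [if_neg (fun h => h.2 hd')]
        refine ⟨l, b + 1, w, D', e1, by omega, ?_, e4, e5, e6⟩
        calc 3 ^ (b + 1) * w = 3 * (3 ^ b * w) := by rw [pow_succ]; ring
          _ = 2 ^ b * (3 * F^[j + 1] m0) := by rw [e3]; ring
          _ = 2 ^ (b + 1) * F^[j] m0 := by rw [h3, pow_succ]; ring
      · obtain ⟨a1, a2⟩ := ihA hd'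
        rw [if_pos ⟨hd, hd'⟩]
        refine ⟨L, 1, F^[j + 1] m0, D, rfl, rfl, by omega, by omega, a1, a2⟩

theorem CHB_thm : CHBStmt := by
  intro m0 k K h2 hk hper hmin hlm
  have hlm0 : 0 ≤ Real.log m0 := Real.log_natCast_nonneg m0
  have hm3 : m0 % 3 ≠ 0 := by
    intro h
    have h3 := hmin 1
    rw [Function.iterate_one] at h3
    have h5 := (chbr_up m0 h2).2.2.1.2 h
    omega
  have h := (chbr_main m0 k h2 hper hmin k (le_refl k)).1
  rw [Nat.sub_self] at h
  obtain ⟨-, h4⟩ := h hm3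
  have e1 : dnc m0 k = ((Ico 0 k).filter fun i => F^[i] m0 % 3 = 0).card := by
    unfold dnc
    rw [Finset.range_eq_Ico]
  have e2 : ((Ico 0 k).filter fun i =>
      F^[i] m0 % 3 = 0 ∧ F^[i + 1] m0 % 3 ≠ 0).card = lm F m0 k := by
    unfold lm
    rw [Finset.range_eq_Ico]
    congr 1
    apply Finset.filter_congr
    intro j _
    have a0 := h2.trans (hmin j)
    have a1 := h2.trans (hmin (j + 1))
    have f1 : F^[j + 1] m0 = F (F^[j] m0) := Function.iterate_succ_apply' _ _ _
    have f2 : F^[j + 2] m0 = F (F^[j + 1] m0) := Function.iterate_succ_apply' _ _ _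
    rw [f2, f1]
    rw [f1] at a1
    rw [(chbr_up _ a0).2.2.1, (chbr_up _ a1).2.2.2]
  rw [e2] at h4
  rw [e1]
  refine h4.trans ?_
  apply mul_le_mul_of_nonneg_right _ hlm0
  unfold chbr_S
  apply Finset.sum_le_sum_of_subset_of_nonneg
  · intro i hi
    rw [Finset.mem_range] at hi ⊢
    omega
  · intro i _ _
    positivity

end Pool.STN
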