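import Pool.Agent.H78.STN.Stmts

set_option autoImplicit false

open Polynomial

namespace Pool.STN

theorem itp_cop (a b : ℚ) (h : a ≠ b) (i j : ℕ) :
    IsCoprime ((X - C a : ℚ[X]) ^ i) ((X - C b) ^ j) :=
  (isCoprime_X_sub_C_of_isUnit_sub (sub_ne_zero.2 h).isUnit).pow

theorem itp_key (r s t : ℚ) (hrs : r ≠ s) (hrt : r ≠ t) (hst : s ≠ t) (i j k : ℕ) :
    ∃ H : ℚ[X], (X - C r) ^ i * (X - C s) ^ j * (X - C t) ^ k ∣ derivative H ∧
      H.eval r = 0 ∧ H.eval s = 0 ∧ H.eval t = 1 := by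
  have hc : IsCoprime ((X - C r : ℚ[X]) ^ (i + 1) * (X - C s) ^ (j + 1)) ((X - C t) ^ (k + 1)) :=
    IsCoprime.mul_left (itp_cop r t hrt _ _) (itp_cop s t hst _ _)
  obtain ⟨a, b, hab⟩ := hc
  have hH : a * ((X - C r : ℚ[X]) ^ (i + 1) * (X - C s) ^ (j + 1)) =
      1 - b * (X - C t) ^ (k + 1) := by
    rw [← hab]
    ring
  refine ⟨a * ((X - C r) ^ (i + 1) * (X - C s) ^ (j + 1)), ?_, ?_, ?_, ?_⟩
  · have h1 : (X - C r : ℚ[X]) ^ i ∣
        derivative (a * ((X - C r) ^ (i + 1) * (X - C s) ^ (j + 1))) := by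
      have := pow_sub_one_dvd_derivative_of_pow_dvd (n := i + 1) (q := (X - C r : ℚ[X]))
        (p := a * ((X - C r) ^ (i + 1) * (X - C s) ^ (j + 1)))
        ((dvd_mul_right _ _).mul_left _)
      simpa using this
    have h2 : (X - C s : ℚ[X]) ^ j ∣
        derivative (a * ((X - C r) ^ (i + 1) * (X - C s) ^ (j + 1))) := by
      have := pow_sub_one_dvd_derivative_of_pow_dvd (n := j + 1) (q := (X - C s : ℚ[X]))
        (p := a * ((X - C r) ^ (i + 1) * (X - C s) ^ (j + 1)))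
        ((dvd_mul_left _ _).mul_left _)
      simpa using this
    have h3 : (X - C t : ℚ[X]) ^ k ∣
        derivative (a * ((X - C r) ^ (i + 1) * (X - C s) ^ (j + 1))) := by
      rw [hH, derivative_sub, derivative_one, zero_sub, dvd_neg]
      have := pow_sub_one_dvd_derivative_of_pow_dvd (n := k + 1) (q := (X - C t : ℚ[X]))
        (p := b * (X - C t) ^ (k + 1)) (dvd_mul_left _ _)
      simpa using this
    exact IsCoprime.mul_dvd (IsCoprime.mul_left (itp_cop r t hrt _ _) (itp_cop s t hst _ _))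
      (IsCoprime.mul_dvd (itp_cop r s hrs _ _) h1 h2) h3
  · simp
  · simp
  · rw [hH]
    simp

theorem ITP_thm : ITPStmt := by
  intro n u v huv
  by_cases hv : v = 0
  · have hu : u ≠ 0 := by
      rcases huv with h | h
      · exact h
      · exact absurd hv h
    obtain ⟨H, ⟨q, hq⟩, h9, h8, h6⟩ := itp_key 9 8 6 (by norm_num) (by norm_num) (by norm_num)
      n (2 * n) (3 * n)
    refine ⟨H, q, ?_, ?_⟩
    · rw [hq]
      unfold Pq
      rw [mul_pow, mul_pow, ← pow_mul, ← pow_mul]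
      ring
    · rw [h6, h8, h9, hv]
      simpa using hu
  · obtain ⟨H, ⟨q, hq⟩, h6, h8, h9⟩ := itp_key 6 8 9 (by norm_num) (by norm_num) (by norm_num)
      (3 * n) (2 * n) n
    refine ⟨H, q, ?_, ?_⟩
    · rw [hq]
      unfold Pq
      rw [mul_pow, mul_pow, ← pow_mul, ← pow_mul]
    · rw [h6, h8, h9]
      simpa using hv

end Pool.STN
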