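import Pool.Agent.H78.STN.Stmts

set_option autoImplicit false

open Polynomial

namespace Pool.STN

theorem mul_term (n q : ℕ) (hq : 0 < q) (h6 : q ≤ 6 * n) :
    1 + (3 * n / q + 2 * n / q + n / q) ≤ (if q ≤ n then 1 else 0) + 6 * n / q := by
  have h3 := Nat.div_mul_le_self (3 * n) q
  have h2 := Nat.div_mul_le_self (2 * n) q
  have h1 := Nat.div_mul_le_self n q
  split_ifs with h
  · apply Nat.add_le_add_left
    rw [Nat.le_div_iff_mul_le hq, add_mul, add_mul]
    linarith
  · push Not at h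
    have h0 : n / q = 0 := Nat.div_eq_of_lt h
    have ha : 3 * n / q < 3 := Nat.div_lt_of_lt_mul (by linarith)
    have hb : 2 * n / q < 2 := Nat.div_lt_of_lt_mul (by linarith)
    have h3' := Nat.lt_mul_div_succ (3 * n) hq
    have h2' := Nat.lt_mul_div_succ (2 * n) hq
    rw [h0, zero_add, Nat.le_div_iff_mul_le hq]
    generalize 3 * n / q = a at *
    generalize 2 * n / q = b at *
    interval_cases a <;> interval_cases b <;> omega

theorem mul_log (p n b : ℕ) (hp : 1 < p) (hn : 0 < n) (hb : Nat.log p n < b) :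
    Nat.log p n = ∑ i ∈ Finset.Ico 1 b, if p ^ i ≤ n then 1 else 0 := by
  rw [← Finset.sum_filter, Finset.sum_const, smul_eq_mul, mul_one]
  have h : Finset.filter (fun i => p ^ i ≤ n) (Finset.Ico 1 b) =
      Finset.Ico 1 (Nat.log p n + 1) := by
    ext i
    simp only [Finset.mem_filter, Finset.mem_Ico]
    constructor
    · rintro ⟨⟨h1, _⟩, h3⟩
      exact ⟨h1, Nat.lt_succ_of_le (Nat.le_log_of_pow_le hp h3)⟩
    · rintro ⟨h1, h2⟩
      exact ⟨⟨h1, by omega⟩, Nat.pow_le_of_le_log hn.ne' (by omega)⟩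
  rw [h, Nat.card_Ico]
  rfl

theorem MUL_thm : MULStmt := by
  intro n
  rcases Nat.eq_zero_or_pos n with h0 | hn
  · subst h0
    simp
  have hf : (3 * n).factorial * (2 * n).factorial * n.factorial ≠ 0 :=
    mul_ne_zero (mul_ne_zero (Nat.factorial_ne_zero _) (Nat.factorial_ne_zero _))
      (Nat.factorial_ne_zero _)
  rw [← Nat.factorization_prime_le_iff_dvd (mul_ne_zero (Nat.lcmUpto_ne_zero _) hf)
    (mul_ne_zero (Nat.lcmUpto_ne_zero _) (Nat.factorial_ne_zero _))]
  intro p hp
  set b := Nat.log p (6 * n) + 1 with hbd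
  have hb6 : Nat.log p (6 * n) < b := Nat.lt_succ_self _
  have hb3 : Nat.log p (3 * n) < b :=
    lt_of_le_of_lt (Nat.log_mono_right (by omega)) hb6
  have hb2 : Nat.log p (2 * n) < b :=
    lt_of_le_of_lt (Nat.log_mono_right (by omega)) hb6
  have hb1 : Nat.log p n < b :=
    lt_of_le_of_lt (Nat.log_mono_right (by omega)) hb6
  rw [Nat.factorization_mul (Nat.lcmUpto_ne_zero _) hf,
    Nat.factorization_mul (mul_ne_zero (Nat.factorial_ne_zero _) (Nat.factorial_ne_zero _))
      (Nat.factorial_ne_zero _),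
    Nat.factorization_mul (Nat.factorial_ne_zero _) (Nat.factorial_ne_zero _),
    Nat.factorization_mul (Nat.lcmUpto_ne_zero _) (Nat.factorial_ne_zero _)]
  simp only [Finsupp.add_apply]
  rw [Nat.factorization_lcmUpto _ hp, Nat.factorization_lcmUpto _ hp,
    Nat.factorization_factorial hp hb3, Nat.factorization_factorial hp hb2,
    Nat.factorization_factorial hp hb1, Nat.factorization_factorial hp hb6]
  have hlog6 : Nat.log p (6 * n) = ∑ i ∈ Finset.Ico 1 b, 1 := by
    rw [Finset.sum_const, smul_eq_mul, mul_one, Nat.card_Ico]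
    rfl
  rw [mul_log p n b hp.one_lt hn hb1, hlog6, ← Finset.sum_add_distrib,
    ← Finset.sum_add_distrib, ← Finset.sum_add_distrib, ← Finset.sum_add_distrib]
  apply Finset.sum_le_sum
  intro i hi
  rw [Finset.mem_Ico] at hi
  exact mul_term n (p ^ i) (pow_pos hp.pos i)
    (Nat.pow_le_of_le_log (by omega) (by omega))

end Pool.STN
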