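import Pool.Agent.H78.STN.Stmts2

set_option autoImplicit false

open Finset Pool.Agent.H40.COL

namespace Pool.STN

theorem sumr_t1 (X Y : ℝ) (hX : 2 ≤ X) (h1 : 4 * X - 1 ≤ 3 * Y) (h2 : 3 * Y ≤ 4 * X + 1) :
    |Real.log Y - Real.log X - (Real.log 2 - Real.log 3 + Real.log 2)| ≤
      1 / (X - 1) - 1 / (Y - 1) := by
  have hX0 : 0 < X := by linarith
  have hX1 : 0 < X - 1 := by linarith
  have hY0 : 0 < Y := by linarith
  have hY1 : 0 < Y - 1 := by linarith
  have e : Real.log Y - Real.log X - (Real.log 2 - Real.log 3 + Real.log 2) =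
      Real.log (3 * Y / (4 * X)) := by
    rw [Real.log_div (by positivity) (by positivity), Real.log_mul (by norm_num) hY0.ne',
      Real.log_mul (by norm_num) hX0.ne']
    have : Real.log 4 = Real.log 2 + Real.log 2 := by
      rw [← Real.log_mul (by norm_num) (by norm_num)]
      norm_num
    rw [this]
    ring
  have h3 : 1 / (Y - 1) ≤ 3 / (4 * (X - 1)) := by
    rw [div_le_div_iff₀ hY1 (by positivity)]
    linarith
  have h4 : 1 / (X - 1) - 3 / (4 * (X - 1)) = 1 / (4 * (X - 1)) := by
    field_simp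
    ring
  have hz : 0 < 3 * Y / (4 * X) := by positivity
  have h5 : Real.log (3 * Y / (4 * X)) ≤ 1 / (4 * (X - 1)) := by
    refine (Real.log_le_sub_one_of_pos hz).trans ?_
    have : 3 * Y / (4 * X) - 1 = (3 * Y - 4 * X) / (4 * X) := by
      field_simp
    rw [this]
    calc (3 * Y - 4 * X) / (4 * X) ≤ 1 / (4 * X) := by
          apply div_le_div_of_nonneg_right _ (by positivity)
          linarith
      _ ≤ 1 / (4 * (X - 1)) := by
          apply one_div_le_one_div_of_le (by positivity)
          linarith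
  have h6 : - Real.log (3 * Y / (4 * X)) ≤ 1 / (4 * (X - 1)) := by
    rw [← Real.log_inv]
    refine (Real.log_le_sub_one_of_pos (inv_pos.2 hz)).trans ?_
    have : (3 * Y / (4 * X))⁻¹ - 1 = (4 * X - 3 * Y) / (3 * Y) := by
      field_simp
    rw [this]
    calc (4 * X - 3 * Y) / (3 * Y) ≤ 1 / (3 * Y) := by
          apply div_le_div_of_nonneg_right _ (by positivity)
          linarith
      _ ≤ 1 / (4 * (X - 1)) := by
          apply one_div_le_one_div_of_le (by positivity)
          linarith
  rw [e, abs_le]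
  constructor <;> linarith

noncomputable def sumr_g (x : ℕ) : ℝ := if x % 3 = 0 then 0 else 1 / ((x : ℝ) - 1)

theorem sumr_step (m0 x : ℕ) (hm0 : 2 ≤ m0) (hx : m0 ≤ x) (hF : m0 ≤ F x) :
    |Real.log (F x) - Real.log x - (Real.log 2 - Real.log 3 +
        (if x % 3 = 0 then 0 else Real.log 2))| ≤
      sumr_g x - sumr_g (F x) +
        (if x % 3 = 0 ∧ F x % 3 ≠ 0 then 1 / ((m0 : ℝ) - 1) else 0) := by
  have hm1 : (2 : ℝ) ≤ m0 := by exact_mod_cast hm0
  have hF1 : (m0 : ℝ) ≤ F x := by exact_mod_cast hF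
  have hx1 : (m0 : ℝ) ≤ x := by exact_mod_cast hx
  by_cases h : x % 3 = 0
  · obtain ⟨y, rfl⟩ : ∃ y, x = 3 * y := ⟨x / 3, by omega⟩
    have hFx : F (3 * y) = 2 * y := by
      unfold F
      rw [if_pos h]
      omega
    have hy : (0 : ℝ) < y := by
      have : 0 < y := by omega
      exact_mod_cast this
    have e : Real.log (F (3 * y) : ℕ) - Real.log (3 * y : ℕ) - (Real.log 2 - Real.log 3 +
        (if 3 * y % 3 = 0 then 0 else Real.log 2)) = 0 := by
      rw [if_pos h, hFx]
      push_cast
      rw [Real.log_mul (by norm_num) hy.ne', Real.log_mul (by norm_num) hy.ne']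
      ring
    rw [e, abs_zero]
    have g0 : sumr_g (3 * y) = 0 := by
      unfold sumr_g
      rw [if_pos h]
    rw [g0]
    by_cases h' : F (3 * y) % 3 = 0
    · have g1 : sumr_g (F (3 * y)) = 0 := by
        unfold sumr_g
        rw [if_pos h']
      rw [g1, if_neg (by tauto)]
      norm_num
    · have g1 : sumr_g (F (3 * y)) = 1 / ((F (3 * y) : ℝ) - 1) := by
        unfold sumr_g
        rw [if_neg h']
      rw [g1, if_pos ⟨h, h'⟩]
      have : 1 / ((F (3 * y) : ℝ) - 1) ≤ 1 / ((m0 : ℝ) - 1) := by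
        apply one_div_le_one_div_of_le
        · linarith
        · linarith
      linarith
  · have h12 : (4 : ℝ) * x - 1 ≤ 3 * (F x : ℕ) ∧ (3 : ℝ) * (F x : ℕ) ≤ 4 * x + 1 := by
      have : 4 * x ≤ 3 * F x + 1 ∧ 3 * F x ≤ 4 * x + 1 := by
        unfold F
        split_ifs <;> omega
      have e1 : (4 : ℝ) * x ≤ 3 * (F x : ℕ) + 1 := by exact_mod_cast this.1
      have e2 : (3 : ℝ) * (F x : ℕ) ≤ 4 * x + 1 := by exact_mod_cast this.2
      exact ⟨by linarith, e2⟩
    have h3 := sumr_t1 x (F x : ℕ) (by linarith) h12.1 h12.2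
    rw [if_neg h, if_neg (by tauto), add_zero]
    have g0 : sumr_g x = 1 / ((x : ℝ) - 1) := by
      unfold sumr_g
      rw [if_neg h]
    have g1 : sumr_g (F x) ≤ 1 / ((F x : ℝ) - 1) := by
      unfold sumr_g
      split_ifs
      · apply div_nonneg zero_le_one
        linarith
      · exact le_refl _
    rw [g0]
    linarith

theorem SUM_thm : SUMStmt := by
  intro m k m0 hk hper hm0 h2
  refine ⟨((range k).filter fun j => ¬ F^[j] m % 3 = 0).card,
    (Finset.card_filter_le _ _).trans (by simp), ?_⟩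
  have h3 : ∑ j ∈ range k, (Real.log (F^[j + 1] m : ℕ) - Real.log (F^[j] m : ℕ)) = 0 := by
    rw [Finset.sum_range_sub (fun j => Real.log (F^[j] m : ℕ)) k, hper]
    simp
  have h4 : ∑ j ∈ range k, (Real.log 2 - Real.log 3 +
      (if F^[j] m % 3 = 0 then 0 else Real.log 2)) =
      ((k + ((range k).filter fun j => ¬ F^[j] m % 3 = 0).card : ℕ) : ℝ) * Real.log 2 -
        (k : ℝ) * Real.log 3 := by
    rw [Finset.sum_add_distrib, Finset.sum_const, card_range]
    have h5 : ∑ j ∈ range k, (if F^[j] m % 3 = 0 then (0 : ℝ) else Real.log 2) =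
        (((range k).filter fun j => ¬ F^[j] m % 3 = 0).card : ℝ) * Real.log 2 := by
      have h6 : ∀ j ∈ range k, (if F^[j] m % 3 = 0 then (0 : ℝ) else Real.log 2) =
          if ¬ F^[j] m % 3 = 0 then Real.log 2 else 0 := by
        intro j _
        by_cases h : F^[j] m % 3 = 0 <;> simp [h]
      rw [Finset.sum_congr rfl h6, ← Finset.sum_filter, Finset.sum_const, nsmul_eq_mul]
    rw [h5, nsmul_eq_mul]
    push_cast
    ring
  have h5 : ((k + ((range k).filter fun j => ¬ F^[j] m % 3 = 0).card : ℕ) : ℝ) * Real.log 2 -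
        (k : ℝ) * Real.log 3 = - ∑ j ∈ range k, (Real.log (F^[j + 1] m : ℕ) -
        Real.log (F^[j] m : ℕ) - (Real.log 2 - Real.log 3 +
          (if F^[j] m % 3 = 0 then 0 else Real.log 2))) := by
    rw [Finset.sum_sub_distrib, h3, h4]
    ring
  rw [h5, abs_neg]
  calc _ ≤ ∑ j ∈ range k, |Real.log (F^[j + 1] m : ℕ) - Real.log (F^[j] m : ℕ) -
        (Real.log 2 - Real.log 3 + (if F^[j] m % 3 = 0 then 0 else Real.log 2))| :=
        Finset.abs_sum_le_sum_abs _ _
    _ ≤ ∑ j ∈ range k, (sumr_g (F^[j] m) - sumr_g (F^[j + 1] m) +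
        (if F^[j] m % 3 = 0 ∧ F^[j + 1] m % 3 ≠ 0 then 1 / ((m0 : ℝ) - 1) else 0)) := by
        refine Finset.sum_le_sum fun j _ => ?_
        have h6 := h2 (j + 1)
        rw [Function.iterate_succ_apply'] at h6 ⊢
        exact sumr_step m0 _ hm0 (h2 j) h6
    _ = (lm F m k : ℝ) / ((m0 : ℝ) - 1) := by
        rw [Finset.sum_add_distrib, Finset.sum_range_sub' (fun j => sumr_g (F^[j] m)) k, hper,
          ← Finset.sum_filter, Finset.sum_const, nsmul_eq_mul]
        have h7 : ((range k).filter fun j => F^[j] m % 3 = 0 ∧ F^[j + 1] m % 3 ≠ 0).card =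
            lm F m k := by
          unfold lm
          congr 1
          apply Finset.filter_congr
          intro j _
          have a0 := h2 j
          have a1 := h2 (j + 1)
          have e1 : F^[j + 1] m = F (F^[j] m) := Function.iterate_succ_apply' _ _ _
          have e2 : F^[j + 2] m = F (F^[j + 1] m) := Function.iterate_succ_apply' _ _ _
          have key : ∀ x, 2 ≤ x → (F x < x ↔ x % 3 = 0) ∧ (x < F x ↔ x % 3 ≠ 0) := by
            intro x hx
            unfold F
            split_ifs <;> omega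
          rw [e2, e1]
          rw [e1] at a1
          rw [(key _ (by omega)).1, (key _ (by omega)).2]
        rw [h7]
        simp only [Function.iterate_zero, id_eq, sub_self, zero_add]
        ring

end Pool.STN
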